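import Pool.Agent.Y854.AB.Count

/-!
The abc triples with `rad (abc) ≤ X`, `rad (abc) ≤ B c ^ (7/3)` and `c ≤ X ^ A` number
`O (X ^ (4/7 + ε))`.
-/

set_option autoImplicit false

namespace Pool.Agent.Q34.ABCS

open Finset

open Pool.Agent.W221.ABC7 (Fx ExcB count_FxB excB_finite Fx_pos)

/-- the product of the primes dividing `n` -/
def radical (n : ℕ) : ℕ := ∏ p ∈ n.primeFactors, p

/-- the abc triples `(a, b, a + b)`, written `(a, b)`: `a` and `b` are coprime and `1 ≤ a ≤ b` -/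
def IsTriple (t : ℕ × ℕ) : Prop := 0 < t.1 ∧ t.1 ≤ t.2 ∧ Nat.Coprime t.1 t.2

/-- the radical of `abc` for the triple `(a, b, a + b)` written `(a, b)` -/
def rad3 (t : ℕ × ℕ) : ℕ := radical (t.1 * t.2 * (t.1 + t.2))

lemma radical_eq (n : ℕ) : radical n = Pool.Agent.H785R2.ABC.rad n := rfl

lemma Fx_le {l : ℝ} (h : l ≤ 7 / 3) : Fx l ≤ 4 * l / 7 := by
  unfold Fx
  split_ifs <;> linarith

/-- one counting step -/
lemma step {B lam b e : ℝ} (hlam : 0 < lam) (hb : 0 < b) (ε : ℝ) (hε : 0 < ε)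
    (he : b * Fx lam ≤ e) : ∃ C : ℝ, ∀ X : ℝ, 1 ≤ X → ∀ T : Set (ℕ × ℕ),
      (∀ t ∈ T, IsTriple t ∧ ((t.1 + t.2 : ℕ) : ℝ) ≤ X ^ b ∧
        (rad3 t : ℝ) ≤ B * ((t.1 + t.2 : ℕ) : ℝ) ^ lam) →
      T.Finite ∧ (T.ncard : ℝ) ≤ C * X ^ (e + ε) := by
  obtain ⟨C, hC⟩ := count_FxB B lam (ε / b) hlam (by positivity)
  refine ⟨|C|, fun X hX T hT => ?_⟩
  have hX0 : 0 < X := by linarith
  set N := ⌊X ^ b⌋₊ with hN
  have hXb : 1 ≤ X ^ b := Real.one_le_rpow hX hb.le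
  have hN1 : 1 ≤ N := Nat.le_floor (by exact_mod_cast hXb)
  have h3 := hC N hN1
  have hfin := excB_finite B lam N
  have hinj : Function.Injective (fun p : ℕ × ℕ => ((p.1, p.2, p.1 + p.2) : ℕ × ℕ × ℕ)) := by
    rintro ⟨a, b⟩ ⟨c, d⟩ hh
    simp only [Prod.mk.injEq] at hh
    exact Prod.ext hh.1 hh.2.1
  have hsub : (fun p : ℕ × ℕ => ((p.1, p.2, p.1 + p.2) : ℕ × ℕ × ℕ)) '' T ⊆ ExcB B lam N := by
    rintro _ ⟨⟨x, y⟩, ht, rfl⟩
    obtain ⟨⟨h1, h2, h4⟩, h5, h6⟩ := hT _ ht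
    exact ⟨h1, lt_of_lt_of_le h1 h2, h4, rfl, Nat.le_floor h5, h6⟩
  have hTfin : T.Finite := Set.Finite.of_finite_image (hfin.subset hsub) hinj.injOn
  refine ⟨hTfin, ?_⟩
  have h7 : T.ncard ≤ (ExcB B lam N).ncard := by
    rw [← Set.ncard_image_of_injective _ hinj]
    exact Set.ncard_le_ncard hsub hfin
  have h8 : (N : ℝ) ≤ X ^ b := Nat.floor_le (by positivity)
  have hF := Fx_pos lam hlam
  calc (T.ncard : ℝ) ≤ ((ExcB B lam N).ncard : ℝ) := by exact_mod_cast h7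
    _ ≤ C * (N : ℝ) ^ (Fx lam + ε / b) := h3
    _ ≤ |C| * (N : ℝ) ^ (Fx lam + ε / b) :=
        mul_le_mul_of_nonneg_right (le_abs_self C) (by positivity)
    _ ≤ |C| * (X ^ b) ^ (Fx lam + ε / b) :=
        mul_le_mul_of_nonneg_left (Real.rpow_le_rpow (Nat.cast_nonneg _) h8 (by positivity))
          (abs_nonneg C)
    _ = |C| * X ^ (b * Fx lam + ε) := by
        rw [← Real.rpow_mul hX0.le]
        congr 2
        field_simp
    _ ≤ |C| * X ^ (e + ε) := by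
        refine mul_le_mul_of_nonneg_left (Real.rpow_le_rpow_of_exponent_le hX ?_) (abs_nonneg C)
        linarith

/-- **Counting by radical.** -/
theorem rad_count (B A ε : ℝ) (hε : 0 < ε) : ∃ C : ℝ, ∀ X : ℝ, 1 ≤ X → ∀ T : Set (ℕ × ℕ),
      (∀ t ∈ T, IsTriple t ∧ (rad3 t : ℝ) ≤ X ∧ ((t.1 + t.2 : ℕ) : ℝ) ≤ X ^ A ∧
        (rad3 t : ℝ) ≤ B * ((t.1 + t.2 : ℕ) : ℝ) ^ (7 / 3 : ℝ)) →
      T.Finite ∧ (T.ncard : ℝ) ≤ C * X ^ (4 / 7 + ε) := by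
  set η := 7 * ε / 8 with hη
  have hη0 : 0 < η := by positivity
  have key : ∀ n : ℕ, ∃ C : ℝ, ∀ X : ℝ, 1 ≤ X → ∀ T : Set (ℕ × ℕ),
      (∀ t ∈ T, IsTriple t ∧ (rad3 t : ℝ) ≤ X ∧
        ((t.1 + t.2 : ℕ) : ℝ) ≤ X ^ (3 / 7 * (1 + η) ^ n) ∧
        (rad3 t : ℝ) ≤ B * ((t.1 + t.2 : ℕ) : ℝ) ^ (7 / 3 : ℝ)) →
      T.Finite ∧ (T.ncard : ℝ) ≤ C * X ^ (4 / 7 + ε) := by
    intro n
    induction n with
    | zero =>
      obtain ⟨C, hC⟩ := step (B := B) (lam := 7 / 3) (b := 3 / 7) (e := 4 / 7) (by norm_num)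
        (by norm_num) ε hε (by
          have := Fx_le (l := 7 / 3) le_rfl
          linarith)
      refine ⟨C, fun X hX T hT => hC X hX T fun t ht => ?_⟩
      obtain ⟨h1, h2, h3, h4⟩ := hT t ht
      refine ⟨h1, ?_, h4⟩
      simpa using h3
    | succ n ih =>
      obtain ⟨C₁, hC₁⟩ := ih
      have hp : (1 : ℝ) ≤ (1 + η) ^ n := one_le_pow₀ (by linarith)
      have hp0 : (0 : ℝ) < (1 + η) ^ n := by positivity
      set a := 3 / 7 * (1 + η) ^ n with ha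
      set b := 3 / 7 * (1 + η) ^ (n + 1) with hb
      have ha0 : 0 < a := by positivity
      have hb0 : 0 < b := by positivity
      have hba : b = a * (1 + η) := by rw [hb, ha, pow_succ]; ring
      have h1a : 1 / a ≤ 7 / 3 := by
        rw [div_le_div_iff₀ ha0 (by norm_num), ha]
        linarith
      obtain ⟨C₂, hC₂⟩ := step (B := 1) (lam := 1 / a) (b := b) (e := 4 / 7 + ε / 2)
        (by positivity) hb0 (ε / 2) (by positivity) (by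
          have h1 := Fx_le h1a
          have h2 : b * Fx (1 / a) ≤ b * (4 * (1 / a) / 7) := mul_le_mul_of_nonneg_left h1 hb0.le
          refine h2.trans (le_of_eq ?_)
          rw [hba, hη]
          field_simp
          ring)
      refine ⟨C₁ + C₂, fun X hX T hT => ?_⟩
      have hX0 : 0 < X := by linarith
      set T₁ := {t | t ∈ T ∧ ((t.1 + t.2 : ℕ) : ℝ) ≤ X ^ a} with hT₁
      set T₂ := {t | t ∈ T ∧ X ^ a < ((t.1 + t.2 : ℕ) : ℝ)} with hT₂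
      have hTT : T ⊆ T₁ ∪ T₂ := by
        intro t ht
        rcases le_or_gt ((t.1 + t.2 : ℕ) : ℝ) (X ^ a) with h | h
        · exact Or.inl ⟨ht, h⟩
        · exact Or.inr ⟨ht, h⟩
      obtain ⟨hf1, hc1⟩ := hC₁ X hX T₁ (by
        rintro t ⟨ht, h⟩
        obtain ⟨h1, h2, h3, h4⟩ := hT t ht
        exact ⟨h1, h2, h, h4⟩)
      obtain ⟨hf2, hc2⟩ := hC₂ X hX T₂ (by
        rintro t ⟨ht, h⟩
        obtain ⟨h1, h2, h3, h4⟩ := hT t ht
        refine ⟨h1, h3, ?_⟩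
        rw [one_mul]
        refine h2.trans ?_
        calc X = (X ^ a) ^ (1 / a) := by
              rw [← Real.rpow_mul hX0.le, mul_one_div_cancel ha0.ne', Real.rpow_one]
          _ ≤ _ := Real.rpow_le_rpow (by positivity) h.le (by positivity))
      refine ⟨(hf1.union hf2).subset hTT, ?_⟩
      have h4 := (Set.ncard_le_ncard hTT (hf1.union hf2)).trans (Set.ncard_union_le _ _)
      have h5 : (4 : ℝ) / 7 + ε / 2 + ε / 2 = 4 / 7 + ε := by ring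
      rw [h5] at hc2
      calc (T.ncard : ℝ) ≤ (T₁.ncard : ℝ) + (T₂.ncard : ℝ) := by exact_mod_cast h4
        _ ≤ C₁ * X ^ (4 / 7 + ε) + C₂ * X ^ (4 / 7 + ε) := add_le_add hc1 hc2
        _ = _ := by ring
  obtain ⟨n, hn⟩ := pow_unbounded_of_one_lt (7 * A / 3) (show 1 < 1 + η by linarith)
  obtain ⟨C, hC⟩ := key n
  refine ⟨C, fun X hX T hT => hC X hX T fun t ht => ?_⟩
  obtain ⟨h1, h2, h3, h4⟩ := hT t ht
  exact ⟨h1, h2, h3.trans (Real.rpow_le_rpow_of_exponent_le hX (by linarith)), h4⟩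

/-- the same in windows -/
theorem rad_windows (B A : ℝ) {v : ℕ → ℝ} {τ θ : ℝ} (hpos : ∀ n, 1 ≤ v n) (hτ : 0 ≤ τ)
    (hv : Pool.Agent.Y854.GM.ExpLe v τ) (hθ : θ < 1) :
    ∃ E : Set ℝ, dimH E ≤ ENNReal.ofReal ((4 / 7 + τ) / (1 - θ)) ∧ ∀ α : ℝ, 0 < α → α ∉ E →
      ∃ n0 : ℕ, ∀ n : ℕ, n0 ≤ n → ∀ t, IsTriple t → ((t.1 + t.2 : ℕ) : ℝ) ≤ (rad3 t : ℝ) ^ A →
        |(rad3 t : ℝ) - α * v n| ≤ (v n) ^ θ → B * ((t.1 + t.2 : ℕ) : ℝ) ^ (7 / 3 : ℝ) < rad3 t := by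
  set A' := max A 0 with hA'
  obtain ⟨E, hE, h⟩ := Pool.Agent.Y854.GM.windows
    {t : ℕ × ℕ | IsTriple t ∧ ((t.1 + t.2 : ℕ) : ℝ) ≤ (rad3 t : ℝ) ^ A' ∧
      (rad3 t : ℝ) ≤ B * ((t.1 + t.2 : ℕ) : ℝ) ^ (7 / 3 : ℝ)} (fun t => (rad3 t : ℝ)) (θ := θ)
    (s := 4 / 7) hpos hτ hv (by norm_num) hθ (by
      intro ε hε
      obtain ⟨C, hC⟩ := rad_count B A' ε hε
      refine ⟨C, fun X hX => hC X hX _ ?_⟩
      rintro t ⟨⟨h1, h2, h3⟩, h4⟩
      exact ⟨h1, h4, h2.trans (Real.rpow_le_rpow (Nat.cast_nonneg _) h4 (le_max_right _ _)), h3⟩)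
  refine ⟨E, hE, fun α hα hαE => ?_⟩
  obtain ⟨n0, hn⟩ := h α hα hαE
  refine ⟨n0, fun n hn1 t ht hA hw => ?_⟩
  by_contra hcon
  push Not at hcon
  have hr : (1 : ℝ) ≤ (rad3 t : ℝ) := by
    have : 0 < rad3 t := Finset.prod_pos fun _ hp => (Nat.prime_of_mem_primeFactors hp).pos
    exact_mod_cast this
  exact absurd (hn n hn1 t ⟨ht, hA.trans (Real.rpow_le_rpow_of_exponent_le hr (le_max_left _ _)),
    hcon⟩) (not_lt.2 hw)

end Pool.Agent.Q34.ABCS
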